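import Pool.Agent.helper97.AS.Spec

set_option autoImplicit false

namespace Pool.Agent.helper97.AS

open Pool.Agent.helper20.LB (Step F IsSq Same Bd co)

lemma PUR_lip (f : ℤ → ℤ) (hS : Step f) (a : ℤ) (k : ℕ) : f a ≤ f (a + k) ∧ f (a + k) ≤ f a + k := by
  induction k with
  | zero => simp
  | succ k ih =>
    have h := hS (a + k)
    have e : a + ((k + 1 : ℕ) : ℤ) = a + k + 1 := by push_cast; ring
    rw [e]
    push_cast
    constructor
    · linarith [ih.1, h.1]
    · linarith [ih.2, h.2]

lemma PUR_lip2 (f : ℤ → ℤ) (hS : Step f) (a b : ℤ) (h : a ≤ b) : f a ≤ f b ∧ f b ≤ f a + (b - a) := by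
  have h1 := PUR_lip f hS a (b - a).toNat
  have h2 : (((b - a).toNat : ℕ) : ℤ) = b - a := Int.toNat_of_nonneg (by linarith)
  rw [h2] at h1
  have h3 : a + (b - a) = b := by ring
  rw [h3] at h1
  exact h1

theorem PUR : PUR_stmt := by
  intro f p τ x M hP hpM hM
  obtain ⟨hS, hp, hper⟩ := hP
  have e1 : f (x + p) = f x + τ := hper x
  have e2 : f (x + p + p) = f (x + p) + τ := hper (x + p)
  have e3 : f (x - 1 + 2 * p) = f (x - 1) + 2 * τ := by
    have h1 := hper (x - 1)
    have h2 := hper (x - 1 + p)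
    have h3 : x - 1 + 2 * p = x - 1 + p + p := by ring
    rw [h3, h2, h1]
    ring
  have e4 : x + p - p = x := by ring
  have hm1 := PUR_lip2 f hS (x + M + 1) (x - 1 + 2 * p) (by linarith)
  have hm2 := PUR_lip2 f hS (x + p + 1) (x + p + p) (by linarith)
  have hst := hS (x + p)
  have hcase : f (x + p + 1) = f (x + p) + 1 ∨ f (x + p + 1) = f (x + p) := by
    rcases hst with ⟨h1, h2⟩
    omega
  have hF : F f (x + p) p = 0 := by
    unfold F
    rw [e4, e2, e1]
    ring
  unfold Good
  rcases hcase with hb | ha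
  · left
    left
    refine ⟨τ, (x + p, p), ?_, ⟨⟨hp, ?_, ?_, hF⟩, hb, ?_⟩⟩
    · unfold kk TT
      have h1 : 1 ≤ τ := by omega
      have h2 : f (x + M + 1) - f (x - 1) ≤ 2 * τ := by omega
      omega
    · show x ≤ x + p - p
      omega
    · show x + p + p ≤ x + p + M
      omega
    · show f (x + p + p) - f (x + p) = τ
      omega
  · right
    left
    left
    refine ⟨p - τ, (x + p, p), ?_, ⟨⟨hp, ?_, ?_, ?_⟩, ?_, ?_⟩⟩
    · unfold kk TT
      have h1 : 1 ≤ p - τ := by omega
      have h2 : M + 2 - (f (x + M + 1) - f (x - 1)) ≤ 2 * (p - τ) := by omega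
      omega
    · show x ≤ x + p - p
      omega
    · show x + p + p ≤ x + p + M
      omega
    · show F (co f) (x + p) p = 0
      unfold F at hF ⊢
      unfold co
      omega
    · show co f (x + p + 1) = co f (x + p) + 1
      unfold co
      omega
    · show co f (x + p + p) - co f (x + p) = p - τ
      unfold co
      omega

end Pool.Agent.helper97.AS
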